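import Pool.Agent.Q203.QB.Main

/-! The cyclic q-binomial sum is a Laurent polynomial with integer coefficients, and all its
coefficients are non-negative integers for 0 ≤ j ≤ m. -/

namespace Pool.Agent.Results.MP_62f119_co.CyclicSum
open Finset

/-- The field of rational functions in one variable. -/
abbrev RatQ : Type := RatFunc ℚ

/-- The indeterminate. -/
noncomputable def q : RatQ := RatFunc.X

/-- The `q`-integer `[n]`. -/
noncomputable def qint (n : ℕ) : RatQ := (1 - q ^ n) / (1 - q)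

/-- The Gaussian coefficient `[N choose k]`, zero for `k > N`. -/
noncomputable def qbin (N k : ℕ) : RatQ :=
  if k ≤ N then ∏ i ∈ Icc 1 k, (1 - q ^ (N - k + i)) / (1 - q ^ i) else 0

/-- The weight `w_k`. -/
noncomputable def w (j : ℤ) (r k : ℕ) : RatQ :=
  q ^ (j * (k : ℤ) ^ 2 - ((r : ℤ) + 1) * k) * qint (2 * k) * qint k ^ (2 * r)

/-- The product `P_k`; the entries are `n 0, …, n (m - 1)`, taken cyclically. -/
noncomputable def P (m : ℕ) (n : ℕ → ℕ) (k : ℕ) : RatQ :=
  ∏ i ∈ range m, qbin (n ((i + 1) % m) + n i) (k + n i)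

/-- The fraction `S`. -/
noncomputable def S (m : ℕ) (n : ℕ → ℕ) (j : ℤ) (a r : ℕ) : RatQ :=
  (∑ k ∈ Icc a (n 0), w j r k * P m n k) /
    (qint (n (m - 1) + a) * qbin (n (m - 1) + n 0) (n 0 - a))

/-- `f` is a Laurent polynomial with integer coefficients. -/
def IsIntegralLaurent (f : RatQ) : Prop :=
  ∃ A : ℤ →₀ ℤ, f = A.sum fun e c => (c : RatQ) * q ^ e

/-- `f` is a Laurent polynomial all of whose coefficients are non-negative integers. -/
def IsNonnegLaurent (f : RatQ) : Prop :=
  ∃ A : ℤ →₀ ℕ, f = A.sum fun e c => (c : RatQ) * q ^ e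

theorem adm : Q203.QB.Adm q where
  ne0 := RatFunc.X_ne_zero
  ne1 := by
    intro n hn h
    have h1 : (algebraMap (Polynomial ℚ) (RatFunc ℚ)) (Polynomial.X ^ n)
        = (algebraMap (Polynomial ℚ) (RatFunc ℚ)) 1 := by
      rw [map_pow, RatFunc.algebraMap_X, map_one]; exact h
    have h2 := RatFunc.algebraMap_injective ℚ h1
    have h3 := congrArg Polynomial.natDegree h2
    rw [Polynomial.natDegree_X_pow, Polynomial.natDegree_one] at h3
    omega

/-- The subsemiring of sums with coefficients from `R`. -/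
noncomputable def comb (R : Type) [CommSemiring R] [Algebra R RatQ] : Subsemiring RatQ :=
  Subsemiring.closure (Set.range (algebraMap R RatQ) ∪ {q, q⁻¹})

theorem comb_spec (R : Type) [CommSemiring R] [Algebra R RatQ] {f : RatQ} (hf : f ∈ comb R) :
    ∃ A : ℤ →₀ R, f = A.sum fun e c => algebraMap R RatQ c * q ^ e := by
  have q0 := adm.ne0
  let M : AddSubmonoid RatQ :=
    { carrier := {f | ∃ A : ℤ →₀ R, f = A.sum fun e c => algebraMap R RatQ c * q ^ e}
      zero_mem' := ⟨0, by simp⟩
      add_mem' := by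
        rintro a b ⟨A, rfl⟩ ⟨B, rfl⟩
        refine ⟨A + B, ?_⟩
        rw [Finsupp.sum_add_index']
        · intro e; simp
        · intro e c d; rw [map_add]; ring }
  have hs : ∀ (e : ℤ) (c : R), algebraMap R RatQ c * q ^ e ∈ M :=
    fun e c => ⟨Finsupp.single e c, by rw [Finsupp.sum_single_index]; simp⟩
  have main : f ∈ M := by
    refine Subsemiring.closure_induction (p := fun x _ => x ∈ M) ?_ ?_ ?_ ?_ ?_ hf
    · rintro x (⟨c, rfl⟩ | hx)
      · simpa using hs 0 c
      · rcases hx with rfl | hx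
        · simpa using hs 1 1
        · rw [Set.mem_singleton_iff] at hx
          subst hx
          simpa using hs (-1) 1
    · exact M.zero_mem
    · simpa using hs 0 1
    · intro x y _ _ hx hy; exact M.add_mem hx hy
    · rintro x y _ _ ⟨A, rfl⟩ ⟨B, rfl⟩
      unfold Finsupp.sum
      rw [Finset.sum_mul_sum]
      refine M.sum_mem (fun i _ => M.sum_mem (fun j _ => ?_))
      have := hs (i + j) (A i * B j)
      rw [zpow_add₀ q0, map_mul] at this
      convert this using 1
      ring
  exact main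

theorem S_eq (m : ℕ) (hm : 1 ≤ m) (n : ℕ → ℕ) (hn : ∀ i < m, 0 < n i) (j : ℤ) (a r : ℕ)
    (ha : a ≤ n 0) :
    S m n j a r = Q203.QB.SS q a (Q203.QB.ww q j a r) (n 0)
      ((List.range' 1 (m - 1)).map n) := by
  obtain ⟨m', rfl⟩ : ∃ m', m = m' + 1 := ⟨m - 1, by omega⟩
  rw [← Q203.QB.quotient_eq adm n (m' + 1 - 1) a r j ha (fun i hi => hn i (by omega))]
  have hbr : ∀ t : ℕ, Q203.QB.br q (t : ℤ) = qint t := by
    intro t
    unfold Q203.QB.br qint
    rw [zpow_natCast]
  have hqb : ∀ N t : ℕ, Q203.QB.qb q N t = qbin N t := fun N t => rfl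
  unfold S P w
  simp only [hbr, hqb, Nat.add_sub_cancel]

/-- **Theorem.** For all `m ≥ 1`, positive `n₁, …, n_m`, all `j ∈ ℤ`, `a ≤ n₁` and `r ≥ 0`, the
fraction `S` is a Laurent polynomial with integer coefficients, and if `0 ≤ j ≤ m` all its
coefficients are non-negative integers. -/
theorem result (m : ℕ) (hm : 1 ≤ m) (n : ℕ → ℕ) (hn : ∀ i < m, 0 < n i) (j : ℤ) (a r : ℕ)
    (ha : a ≤ n 0) :
    IsIntegralLaurent (S m n j a r) ∧
      (0 ≤ j → j ≤ m → IsNonnegLaurent (S m n j a r)) := by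
  have hrest : ∀ t ∈ (List.range' 1 (m - 1)).map n, 1 ≤ t := by
    intro t ht
    obtain ⟨i, hi, rfl⟩ := List.mem_map.mp ht
    have := List.mem_range'.mp hi
    obtain ⟨i', h1, h2⟩ := this
    exact hn i (by omega)
  have h0 : 1 ≤ n 0 := hn 0 (by omega)
  have sub : ∀ (R : Type) [CommSemiring R] [Algebra R RatQ], q ∈ comb R ∧ q⁻¹ ∈ comb R := by
    intro R _ _
    exact ⟨Subsemiring.subset_closure (Or.inr (Or.inl rfl)),
      Subsemiring.subset_closure (Or.inr (Or.inr rfl))⟩
  constructor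
  · have hneg : (-1 : RatQ) ∈ comb ℤ :=
      Subsemiring.subset_closure (Or.inl ⟨-1, by simp⟩)
    have := Q203.QB.laurent adm (sub ℤ).1 (sub ℤ).2 hneg a r j
      ((List.range' 1 (m - 1)).map n) (n 0) ha h0 hrest
    rw [← S_eq m hm n hn j a r ha] at this
    obtain ⟨A, hA⟩ := comb_spec ℤ this
    exact ⟨A, by simpa using hA⟩
  · intro hj hj'
    have hl : (((List.range' 1 (m - 1)).map n).length : ℤ) + 1 = m := by
      rw [List.length_map, List.length_range']; omega
    have := Q203.QB.positive adm (sub ℕ).1 (sub ℕ).2 a r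
      ((List.range' 1 (m - 1)).map n) (n 0) j ha h0 hrest hj (by rw [hl]; exact hj')
    rw [← S_eq m hm n hn j a r ha] at this
    obtain ⟨A, hA⟩ := comb_spec ℕ this
    exact ⟨A, by simpa using hA⟩

end Pool.Agent.Results.MP_62f119_co.CyclicSum
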